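import Pool.Agent.H174.GP.StA

/-!
# Project GP (helper174): counting partitions and graphical partitions by Durfee size
-/

set_option autoImplicit false

open MeasureTheory ProbabilityTheory Finset

namespace Pool.Agent.H249.GP174

open Pool.Agent.H174.GP

/-- the data of Durfee size `d` whose partition has the property `R` -/
def X (R : Multiset ℕ → Prop) (m d : ℕ) : Set ((Fin d → ℕ) × (Fin d → ℕ)) :=
  {gh | d ^ 2 + ∑ i : Fin d, ((i : ℕ) + 1) * (gh.1 i + gh.2 i) = m ∧ R (toP d gh.1 gh.2)}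

theorem toP_pos {d : ℕ} {g h : Fin d → ℕ} {x : ℕ} (hx : x ∈ toP d g h) : 0 < x := by
  unfold toP at hx
  rw [Multiset.mem_add] at hx
  rcases hx with hx | hx
  · rw [Multiset.mem_map] at hx
    obtain ⟨i, -, rfl⟩ := hx
    have : 0 < d := lt_of_le_of_lt (Nat.zero_le _) i.2
    unfold topP
    omega
  · rw [Multiset.mem_sum] at hx
    obtain ⟨l, -, hx⟩ := hx
    rw [Multiset.eq_of_mem_replicate hx]
    omega

/-- the partition attached to the data -/
noncomputable def toPart (h1 : S_toPsum) (R : Multiset ℕ → Prop) (m d : ℕ) (x : X R m d) :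
    {p : Nat.Partition m // R p.parts} :=
  ⟨⟨toP d x.1.1 x.1.2, fun hi => toP_pos hi, (h1 d x.1.1 x.1.2).trans x.2.1⟩, x.2.2⟩

theorem card_eq (h1 : S_toPsum) (h2 : S_toPinj) (h3 : S_toPsurj) (R : Multiset ℕ → Prop) (m : ℕ) :
    Nat.card {p : Nat.Partition m // R p.parts} = ∑ d ∈ Finset.range (m + 1), (X R m d).ncard := by
  classical
  have hinj : ∀ x y : (Σ d : Fin (m + 1), X R m (d : ℕ)),
      (toPart h1 R m x.1 x.2).1.parts = (toPart h1 R m y.1 y.2).1.parts → x = y := by
    rintro ⟨⟨d, hd⟩, ⟨⟨g, h⟩, hx⟩⟩ ⟨⟨d', hd'⟩, ⟨⟨g', h'⟩, hx'⟩⟩ he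
    have h4 := h2 d d' g h g' h' he
    rw [Sigma.mk.injEq] at h4
    obtain ⟨h5, h6⟩ := h4
    subst h5
    have h7 := eq_of_heq h6
    rw [Prod.mk.injEq] at h7
    obtain ⟨rfl, rfl⟩ := h7
    rfl
  have hfin : ∀ d : Fin (m + 1), Finite (X R m (d : ℕ)) := by
    intro d
    refine Finite.of_injective (fun x => (toPart h1 R m d x).1) ?_
    intro x y hxy
    have h4 := hinj ⟨d, x⟩ ⟨d, y⟩ (congrArg Nat.Partition.parts hxy)
    rw [Sigma.mk.injEq] at h4
    exact eq_of_heq h4.2
  have hcard : Nat.card (Σ d : Fin (m + 1), X R m (d : ℕ)) =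
      Nat.card {p : Nat.Partition m // R p.parts} := by
    refine Nat.card_eq_of_bijective
      (fun x : (Σ d : Fin (m + 1), X R m (d : ℕ)) => toPart h1 R m x.1 x.2) ⟨?_, ?_⟩
    · intro x y hxy
      exact hinj x y (congrArg (fun p => p.1.parts) hxy)
    · rintro ⟨p, hp⟩
      obtain ⟨d, g, h, hs⟩ := h3 p.parts (fun x hx => p.parts_pos hx)
      have hsum : d ^ 2 + ∑ i : Fin d, ((i : ℕ) + 1) * (g i + h i) = m := by
        rw [← h1 d g h, hs]
        exact p.parts_sum
      have hd : d < m + 1 := by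
        have : d ≤ d ^ 2 := Nat.le_self_pow (by norm_num) d
        omega
      refine ⟨⟨⟨d, hd⟩, ⟨(g, h), hsum, ?_⟩⟩, ?_⟩
      · show R (toP d g h)
        rw [hs]
        exact hp
      · apply Subtype.ext
        apply Nat.Partition.ext
        exact hs
  rw [← hcard, Nat.card_sigma, Finset.sum_range]
  rfl

theorem gp_count (h1 : S_toPsum) (h2 : S_toPinj) (h3 : S_toPsurj) (h4 : S_Crit) :
    Pool.Agent.H174.GP.S_Count := by
  constructor
  · intro m
    have h5 := card_eq h1 h2 h3 (fun _ => True) m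
    have h6 : Nat.card {p : Nat.Partition m // (fun _ => True) p.parts} =
        Nat.card (Nat.Partition m) :=
      Nat.card_congr (Equiv.subtypeUnivEquiv (fun _ => trivial))
    rw [← h6, h5]
    refine Finset.sum_congr rfl fun d _ => ?_
    unfold X cnt
    simp only [and_true]
  · intro n hn
    have h5 := card_eq h1 h2 h3 GrM (2 * n)
    have h6 : Nat.card {p : Nat.Partition (2 * n) // IsGraphical p} =
        Nat.card {p : Nat.Partition (2 * n) // GrM p.parts} := rfl
    rw [h6, h5]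
    refine Finset.sum_congr rfl fun d _ => ?_
    unfold X cntP
    have h7 : {gh : (Fin d → ℕ) × (Fin d → ℕ) |
        d ^ 2 + ∑ i : Fin d, ((i : ℕ) + 1) * (gh.1 i + gh.2 i) = 2 * n ∧ GrM (toP d gh.1 gh.2)} =
        {gh : (Fin d → ℕ) × (Fin d → ℕ) |
        d ^ 2 + ∑ i : Fin d, ((i : ℕ) + 1) * (gh.1 i + gh.2 i) = 2 * n ∧
        ∀ k ∈ Finset.Icc 1 d, (k : ℤ) ≤ ∑ i : Fin d,
          ((min ((i : ℕ) + 1) k : ℕ) : ℤ) * ((gh.2 i : ℤ) - (gh.1 i : ℤ))} := by
      ext gh
      simp only [Set.mem_setOf_eq]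
      refine and_congr_right fun hs => ?_
      rcases Nat.eq_zero_or_pos d with hd | hd
      · subst hd
        exfalso
        simp at hs
        omega
      · rw [h4 d gh.1 gh.2 hd, h1 d gh.1 gh.2, hs]
        have : Even (2 * n) := even_two_mul n
        exact and_iff_right this
    rw [h7]

end Pool.Agent.H249.GP174
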